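import Pool.Agent.Q158.ChainBdd

/-!
# A locally chain-bounded lattice without a strictly monotone map into the integers
-/

set_option autoImplicit false

namespace Pool.Agent.Results.MP_df7fe8_co.NoIntegerMap

/-- There is a lattice in which, for all `x ≤ y`, the chains contained in the interval `[x, y]`
have bounded size, but which has no strictly monotone map into the integers. -/
theorem result : ∃ (L : Type) (_ : Lattice L),
    (∀ x y : L, x ≤ y → ∃ n : ℕ, ∀ C : Set L, C ⊆ Set.Icc x y →
      IsChain (· ≤ ·) C → C.encard ≤ n) ∧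
    ¬ ∃ f : L → ℤ, ∀ x y : L, x < y → f x < f y :=
  ⟨Q158.ChainBdd.E.L, inferInstance, fun x y _ => Q158.ChainBdd.E.locally_bounded x y,
    fun ⟨f, hf⟩ => Q158.ChainBdd.E.no_map f fun _ _ h => hf _ _ h⟩

end Pool.Agent.Results.MP_df7fe8_co.NoIntegerMap
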